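import Mathlib

namespace Pool.Agent.Results.MP_0bf243_co.SevenSquares

/-- The set of palindromic factors of a finite binary word (the empty word included). -/
def palFactors (u : List Bool) : Set (List Bool) := {p | p <:+: u ∧ p.reverse = p}

/-- A finite word `u` is rich if it has exactly `|u| + 1` distinct palindromic factors. -/
def Rich (u : List Bool) : Prop := (palFactors u).ncard = u.length + 1

/-- `u` is the word read in the two-dimensional word `w` (`none` = empty cell) starting from the
cell `(i, j)` and moving by the step `(di, dj)`; all the cells met are non-empty. -/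
def Reads (w : ℤ → ℤ → Option Bool) (i j di dj : ℤ) (u : List Bool) : Prop :=
  ∀ (k : ℕ) (hk : k < u.length), w (i + k * di) (j + k * dj) = some u[k]

/-- A two-dimensional word is rich if all its (finite) horizontal and vertical words are rich. -/
def Rich2D (w : ℤ → ℤ → Option Bool) : Prop :=
  ∀ (i j : ℤ) (u : List Bool), u ≠ [] →
    (Reads w i j 0 1 u → Rich u) ∧ (Reads w i j 1 0 u → Rich u)

/-- `w` extends to a rich plane: its empty cells can be filled so that the result is rich. -/
def ExtendsToRichPlane (w : ℤ → ℤ → Option Bool) : Prop :=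
  ∃ w' : ℤ → ℤ → Bool, (∀ i j b, w i j = some b → w' i j = b) ∧ Rich2D (fun i j => some (w' i j))

/-! ### Generalities on rich words -/

lemma palFactors_finite (u : List Bool) : (palFactors u).Finite := by
  refine Set.Finite.subset (List.finite_toSet u.sublists) ?_
  rintro p ⟨hp, -⟩
  simpa using hp.sublist

lemma pal_short {u P Q : List Bool} {c : Bool} (hP : P <:+ u ++ [c]) (hQ : Q <:+ u ++ [c])
    (hPr : P.reverse = P) (hQr : Q.reverse = Q) (hl : Q.length < P.length) : Q <:+: u := by
  have h1 : Q <:+ P := List.suffix_of_suffix_length_le hQ hP hl.le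
  have h2 : Q <+: P := by
    have h3 := List.reverse_prefix.2 h1
    rwa [hPr, hQr] at h3
  obtain ⟨q, hq⟩ := h2
  obtain ⟨v, hv⟩ := hP
  have hqne : q ≠ [] := by
    rintro rfl
    rw [List.append_nil] at hq
    rw [hq] at hl
    exact lt_irrefl _ hl
  obtain ⟨q', d, rfl⟩ : ∃ q' d, q = q' ++ [d] :=
    ⟨q.dropLast, q.getLast hqne, (List.dropLast_append_getLast hqne).symm⟩
  rw [← hq] at hv
  have h4 : (v ++ (Q ++ q')) ++ [d] = u ++ [c] := by
    rw [← hv]; simp
  have h5 := List.append_inj_left' h4 rfl
  exact ⟨v, q', by rw [← h5]; simp⟩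

lemma palFactors_concat {u P : List Bool} {c : Bool} (hP : P <:+ u ++ [c])
    (hPr : P.reverse = P) (hPn : ¬ P <:+: u) :
    palFactors (u ++ [c]) = insert P (palFactors u) := by
  ext p
  simp only [palFactors, Set.mem_insert_iff, Set.mem_ofPred_eq]
  constructor
  · rintro ⟨h1, h2⟩
    rcases List.infix_concat_iff.1 h1 with h3 | h3
    · by_cases hpu : p <:+: u
      · exact Or.inr ⟨hpu, h2⟩
      · left
        rcases lt_trichotomy p.length P.length with hl | hl | hl
        · exact absurd (pal_short hP h3 hPr h2 hl) hpu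
        · exact (List.suffix_of_suffix_length_le h3 hP hl.le).eq_of_length hl
        · exact absurd (pal_short h3 hP h2 hPr hl) hPn
    · exact Or.inr ⟨h3, h2⟩
  · rintro (rfl | ⟨h1, h2⟩)
    · exact ⟨hP.isInfix, hPr⟩
    · exact ⟨h1.trans (List.prefix_append u [c]).isInfix, h2⟩

lemma rich_concat {u P : List Bool} {c : Bool} (hu : Rich u) (hP : P <:+ u ++ [c])
    (hPr : P.reverse = P) (hPn : ¬ P <:+: u) : Rich (u ++ [c]) := by
  have h := palFactors_concat hP hPr hPn
  have h' : P ∉ palFactors u := fun hh => hPn hh.1
  unfold Rich at hu ⊢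
  rw [h, Set.ncard_insert_of_notMem h' (palFactors_finite u), hu]
  simp

lemma ncard_concat_le (u : List Bool) (c : Bool) :
    (palFactors (u ++ [c])).ncard ≤ (palFactors u).ncard + 1 := by
  by_cases h : ∃ P : List Bool, P <:+ u ++ [c] ∧ P.reverse = P ∧ ¬ P <:+: u
  · obtain ⟨P, h1, h2, h3⟩ := h
    rw [palFactors_concat h1 h2 h3]
    exact Set.ncard_insert_le _ _
  · push Not at h
    refine (Set.ncard_le_ncard ?_ (palFactors_finite u)).trans (Nat.le_succ _)
    rintro p ⟨h1, h2⟩
    refine ⟨?_, h2⟩
    rcases List.infix_concat_iff.1 h1 with h3 | h3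
    · exact h p h3 h2
    · exact h3

lemma rich_nil : Rich [] := by
  have : palFactors [] = {[]} := by
    ext p
    simp only [palFactors, Set.mem_ofPred_eq, Set.mem_singleton_iff, List.infix_nil]
    constructor
    · rintro ⟨h, -⟩; exact h
    · rintro rfl; simp
  unfold Rich
  rw [this]; simp

lemma ncard_le (u : List Bool) : (palFactors u).ncard ≤ u.length + 1 := by
  induction u using List.reverseRecOn with
  | nil => exact le_of_eq rich_nil
  | append_singleton u c ih =>
    have := ncard_concat_le u c
    simp only [List.length_append, List.length_singleton]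
    omega

lemma rich_of_concat {u : List Bool} {c : Bool} (h : Rich (u ++ [c])) : Rich u := by
  have h1 := ncard_concat_le u c
  have h2 := ncard_le u
  unfold Rich at h ⊢
  simp only [List.length_append, List.length_singleton] at h
  omega

lemma palFactors_reverse (u : List Bool) : palFactors u.reverse = palFactors u := by
  ext p
  simp only [palFactors, Set.mem_ofPred_eq]
  constructor
  · rintro ⟨h1, h2⟩
    refine ⟨?_, h2⟩
    rw [← h2] at h1
    exact List.reverse_infix.1 h1
  · rintro ⟨h1, h2⟩
    refine ⟨?_, h2⟩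
    rw [← h2]
    exact List.reverse_infix.2 h1

lemma rich_reverse {u : List Bool} : Rich u.reverse ↔ Rich u := by
  unfold Rich
  rw [palFactors_reverse, List.length_reverse]

lemma rich_of_append_right {u v : List Bool} (h : Rich (u ++ v)) : Rich u := by
  induction v using List.reverseRecOn with
  | nil => simpa using h
  | append_singleton v c ih =>
    apply ih
    rw [← List.append_assoc] at h
    exact rich_of_concat h

lemma rich_of_infix {u v : List Bool} (h : Rich u) (hv : v <:+: u) : Rich v := by
  obtain ⟨s, t, rfl⟩ := hv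
  have h1 := rich_of_append_right h
  rw [← rich_reverse, List.reverse_append] at h1
  exact rich_reverse.1 (rich_of_append_right h1)

/-- A Boolean test for richness. -/
def richB : List Bool → Bool
  | [] => true
  | c :: v => richB v && (c :: v).inits.any
      (fun p => decide (p.reverse = p) && !(decide (p <:+: v)))

lemma rich_of_richB : ∀ u : List Bool, richB u = true → Rich u
  | [], _ => rich_nil
  | c :: v, h => by
    simp only [richB, Bool.and_eq_true, List.any_eq_true, List.mem_inits, Bool.not_eq_true',
      decide_eq_true_eq, decide_eq_false_iff_not] at h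
    obtain ⟨h1, P, h2, h3, h4⟩ := h
    have h5 := rich_of_richB v h1
    rw [← rich_reverse, List.reverse_cons]
    refine rich_concat (rich_reverse.2 h5) (P := P) ?_ h3 ?_
    · rw [← h3, ← List.reverse_cons]
      exact List.reverse_suffix.2 h2
    · rw [← h3]
      intro h6
      exact h4 (List.reverse_infix.1 h6)

/-! ### Windows of a two-sided infinite word -/

/-- The factor of the two-sided word `x` starting at `a` with length `n`. -/
def win (x : ℤ → Bool) (a : ℤ) (n : ℕ) : List Bool := (List.range n).map (fun k : ℕ => x (a + (k : ℤ)))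

@[simp] lemma win_length (x : ℤ → Bool) (a : ℤ) (n : ℕ) : (win x a n).length = n := by simp [win]

lemma win_succ (x : ℤ → Bool) (a : ℤ) (n : ℕ) : win x a (n + 1) = win x a n ++ [x (a + n)] := by
  simp [win, List.range_succ]

lemma win_add (x : ℤ → Bool) (a : ℤ) (m n : ℕ) :
    win x a (m + n) = win x a m ++ win x (a + m) n := by
  induction n with
  | zero => simp [win]
  | succ n ih =>
    rw [← Nat.add_assoc, win_succ, win_succ, ih, List.append_assoc]
    congr 3
    push_cast
    ring_nf

lemma win_congr {x y : ℤ → Bool} {a b : ℤ} {n : ℕ} (h : ∀ k : ℕ, k < n → x (a + k) = y (b + k)) :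
    win x a n = win y b n := by
  unfold win
  apply List.map_congr_left
  intro k hk
  exact h k (List.mem_range.1 hk)

lemma win_getElem (x : ℤ → Bool) (a : ℤ) (n k : ℕ) (h : k < (win x a n).length) :
    (win x a n)[k] = x (a + k) := by
  simp [win]

lemma win_inj {x y : ℤ → Bool} {a b : ℤ} {n : ℕ} (h : win x a n = win y b n) (k : ℕ)
    (hk : k < n) : x (a + k) = y (b + k) := by
  have h1 : k < (win x a n).length := by simpa using hk
  have h2 : k < (win y b n).length := by simpa using hk
  rw [← win_getElem x a n k h1, ← win_getElem y b n k h2]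
  simp only [h]

lemma win_infix (x : ℤ → Bool) (a : ℤ) (p m q : ℕ) : win x (a + p) m <:+: win x a (p + m + q) := by
  refine ⟨win x a p, win x (a + p + m) q, ?_⟩
  rw [win_add x a (p + m) q, win_add x a p m]
  congr 2
  push_cast
  ring_nf

lemma win_reverse (x : ℤ → Bool) (a : ℤ) (n : ℕ) (c : ℤ) (hc : c = a + n - 1) :
    (win x a n).reverse = win (fun j => x (c - j)) 0 n := by
  apply List.ext_getElem
  · simp
  · intro i h1 h2
    rw [List.getElem_reverse, win_getElem, win_getElem]
    simp only [win_length, List.length_reverse] at h1 ⊢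
    congr 1
    subst hc
    push_cast [Nat.cast_sub (show i ≤ n - 1 by omega), Nat.cast_sub (show 1 ≤ n by omega)]
    ring

lemma infix_win {x : ℤ → Bool} {a : ℤ} {n : ℕ} {P : List Bool} (h : P <:+: win x a n) :
    ∃ t : ℕ, t + P.length ≤ n ∧ P = win x (a + t) P.length := by
  obtain ⟨s, t, hst⟩ := h
  have hlen : s.length + P.length + t.length = n := by
    have := congrArg List.length hst
    simpa [Nat.add_assoc] using this
  refine ⟨s.length, by omega, ?_⟩
  apply List.ext_getElem
  · simp
  · intro i h1 h2
    rw [win_getElem]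
    have h3 : s.length + i < (win x a n).length := by simp; omega
    have h4 := win_getElem x a n (s.length + i) h3
    have h5 : (win x a n)[s.length + i] = P[i] := by
      simp only [← hst]
      rw [List.getElem_append_left (by simp; omega), List.getElem_append_right (by omega)]
      simp
    rw [← h5, h4]
    congr 1
    push_cast
    ring

/-- Richness of the window `[a, e]`. -/
def R (x : ℤ → Bool) (a e : ℤ) : Prop := Rich (win x a (e + 1 - a).toNat)

lemma R_step {x : ℤ → Bool} {a e s : ℤ} (has : a ≤ s) (hse : s ≤ e)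
    (pal : ∀ i, s ≤ i → i ≤ e → x i = x (s + e - i))
    (uni : ∀ t, a ≤ t → t < s → ∃ i, 0 ≤ i ∧ i ≤ e - s ∧ x (t + i) ≠ x (s + i))
    (h : R x a (e - 1)) : R x a e := by
  unfold R at h ⊢
  obtain ⟨n, hn⟩ : ∃ n : ℕ, e = a + n := ⟨(e - a).toNat, by omega⟩
  subst hn
  have e1 : (a + (n:ℤ) + 1 - a).toNat = n + 1 := by omega
  have e2 : (a + (n:ℤ) - 1 + 1 - a).toNat = n := by omega
  rw [e1]
  rw [e2] at h
  obtain ⟨k, hk⟩ : ∃ k : ℕ, s = a + k := ⟨(s - a).toNat, by omega⟩
  subst hk
  obtain ⟨m, hm⟩ : ∃ m : ℕ, n = k + m := ⟨n - k, by omega⟩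
  subst hm
  rw [win_succ]
  refine rich_concat h (P := win x (a + k) (m + 1)) ?_ ?_ ?_
  · rw [← win_succ, Nat.add_assoc, win_add x a k (m + 1)]
    exact List.suffix_append _ _
  · rw [win_reverse x (a + k) (m + 1) (a + k + m) (by push_cast; ring)]
    apply win_congr
    intro i hi
    have h1 := pal (a + k + i) (by omega) (by push_cast; omega)
    rw [h1]
    congr 1
    push_cast
    ring
  · intro hin
    obtain ⟨t, ht1, ht2⟩ := infix_win hin
    simp only [win_length] at ht1 ht2
    obtain ⟨i, hi0, hi1, hi2⟩ := uni (a + t) (by omega) (by omega)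
    obtain ⟨j, rfl⟩ : ∃ j : ℕ, i = j := ⟨i.toNat, by omega⟩
    exact hi2 (win_inj ht2 j (by push_cast at hi1; omega)).symm

lemma R_mirror {x y : ℤ → Bool} {a e m : ℤ} (hxy : ∀ j, y j = x (m - j)) :
    R y (m - e) (m - a) ↔ R x a e := by
  unfold R
  rcases lt_or_ge e a with h | h
  · have e1 : (m - a + 1 - (m - e)).toNat = 0 ∨ (m - a + 1 - (m - e)).toNat = 0 := by omega
    have e2 : (e + 1 - a).toNat = 0 := by omega
    have e3 : (m - a + 1 - (m - e)).toNat = 0 := by omega
    rw [e2, e3]
    simp [win]
  · have e1 : (m - a + 1 - (m - e)).toNat = (e + 1 - a).toNat := by omega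
    rw [e1]
    have h2 : win y (m - e) (e + 1 - a).toNat = (win x a (e + 1 - a).toNat).reverse := by
      rw [win_reverse x a (e + 1 - a).toNat e (by omega)]
      apply win_congr
      intro k hk
      rw [hxy]
      congr 1
      ring
    rw [h2, rich_reverse]

lemma R_sub {x : ℤ → Bool} {a e b f : ℤ} (h : R x a e) (h1 : a ≤ b) (h2 : f ≤ e) (h3 : b ≤ f + 1) :
    R x b f := by
  unfold R at h ⊢
  refine rich_of_infix h ?_
  obtain ⟨p, hp⟩ : ∃ p : ℕ, b = a + p := ⟨(b - a).toNat, by omega⟩
  subst hp
  have := win_infix x a p (f + 1 - (a + p)).toNat (e - f).toNat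
  have e1 : p + (f + 1 - (a + p)).toNat + (e - f).toNat = (e + 1 - a).toNat := by omega
  rwa [e1] at this

/-! ### The index map and the words `X w` -/

/-- The index map `ℤ → {0, …, 6}`: `… 0 1 2 3 4 0 1 2 3 4 5 6 2 3 4 5 6 2 3 4 5 6 …`. -/
def phi (j : ℤ) : ℕ :=
  if j ≤ 4 then (j % 5).toNat else if j ≤ 6 then j.toNat else (2 + (j - 2) % 5).toNat

/-- The two-sided word obtained from the word `w 0, …, w 6`. -/
def X (w : ℕ → Bool) (j : ℤ) : Bool := w (phi j)

lemma phi_le (j : ℤ) : phi j ≤ 6 := by unfold phi; split_ifs <;> omega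

lemma phi_of_mem (j : ℤ) (h0 : 0 ≤ j) (h6 : j ≤ 6) : phi j = j.toNat := by
  unfold phi; split_ifs <;> omega

lemma phi_mirror (j : ℤ) : phi (6 - j) = 6 - phi j := by unfold phi; split_ifs <;> omega

/-- Right cyclic word of `w`. -/
def yv (w : ℕ → Bool) (i : ℕ) : Bool := if i = 0 then w 5 else if i = 1 then w 6 else w i

lemma X_left (w : ℕ → Bool) (j : ℤ) (h : j ≤ 4) : X w j = w (j % 5).toNat := by
  unfold X phi; rw [if_pos h]

lemma X_right (w : ℕ → Bool) (j : ℤ) (h : 2 ≤ j) : X w j = yv w (j % 5).toNat := by
  unfold X yv phi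
  have h5 : (j % 5).toNat = 0 ∨ (j % 5).toNat = 1 ∨ 2 ≤ (j % 5).toNat := by omega
  split_ifs with h1 h2 h3 h4 h6 h7 <;> first | omega | (congr 1 <;> omega)

lemma X_one (w : ℕ → Bool) (h : w 1 = w 6) : X w 1 = yv w (((1 : ℤ) % 5).toNat) := by
  simp [X, phi, yv, h]

/-- The start of the right periodic part. -/
def rr (w : ℕ → Bool) : ℤ := if w 1 = w 6 then 1 else 2

lemma rr_mem (w : ℕ → Bool) : rr w = 1 ∨ rr w = 2 := by unfold rr; split_ifs <;> simp

lemma X_rr (w : ℕ → Bool) (j : ℤ) (h : rr w ≤ j) : X w j = yv w (j % 5).toNat := by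
  unfold rr at h
  split_ifs at h with h1
  · rcases eq_or_lt_of_le h with rfl | h2
    · exact X_one w h1
    · exact X_right w j (by omega)
  · exact X_right w j h

/-- The constant-tail condition. -/
def Tail (w : ℕ → Bool) : Prop := w 2 = w 3 ∧ w 3 = w 4 ∧ w 4 = w 5 ∧ w 5 = w 6
/-- No nontrivial rotation fixes the right cyclic word. -/
def D1 (w : ℕ → Bool) : Prop :=
  ∀ p < 5, ∀ d < 5, 0 < d → ∃ i < 5, yv w ((p + i) % 5) ≠ yv w ((p + d + i) % 5)
/-- The left and right cyclic words are not conjugate. -/
def D2 (w : ℕ → Bool) : Prop :=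
  ∀ p < 5, ∀ q < 5, ∃ i < 5, w ((p + i) % 5) ≠ yv w ((q + i) % 5)
/-- `w` is a palindrome with `w 0 ≠ w 1`. -/
def PalC (w : ℕ → Bool) : Prop := w 0 = w 6 ∧ w 1 = w 5 ∧ w 2 = w 4 ∧ w 0 ≠ w 1
/-- The right cyclic word has a reflection symmetry. -/
def Refl (w : ℕ → Bool) : Prop := ∃ c < 5, ∀ p < 5, ∀ q < 5, (p + q) % 5 = c → yv w p = yv w q

instance (w : ℕ → Bool) : Decidable (Tail w) := by unfold Tail; infer_instance
instance (w : ℕ → Bool) : Decidable (D1 w) := by unfold D1; infer_instance
instance (w : ℕ → Bool) : Decidable (D2 w) := by unfold D2; infer_instance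
instance (w : ℕ → Bool) : Decidable (PalC w) := by unfold PalC; infer_instance
instance (w : ℕ → Bool) : Decidable (Refl w) := by unfold Refl; infer_instance

/-- The word with the given seven letters. -/
def mk (b0 b1 b2 b3 b4 b5 b6 : Bool) (i : ℕ) : Bool :=
  if i = 0 then b0 else if i = 1 then b1 else if i = 2 then b2 else if i = 3 then b3
  else if i = 4 then b4 else if i = 5 then b5 else b6

/-- The window `[-4, 10]` of `X w`. -/
def core (w : ℕ → Bool) : List Bool :=
  [w 1, w 2, w 3, w 4, w 0, w 1, w 2, w 3, w 4, w 5, w 6, w 2, w 3, w 4, w 5]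

/-- Everything that is checked for the 128 binary words of length 7. -/
def Good (w : ℕ → Bool) : Prop :=
  (Tail w ∨ D1 w) ∧ (¬ (w 0 = w 5 ∧ w 1 = w 6) → Tail w ∨ D2 w ∨ PalC w) ∧ Refl w ∧
    richB (core w) = true

instance (w : ℕ → Bool) : Decidable (Good w) := by unfold Good; infer_instance

set_option maxRecDepth 100000 in
lemma good_all : ∀ b0 b1 b2 b3 b4 b5 b6 : Bool, Good (mk b0 b1 b2 b3 b4 b5 b6) := by
  decide +kernel

/-- All letters of index at least `6` agree (a word with seven letters). -/
def Seven (w : ℕ → Bool) : Prop := ∀ i, 6 ≤ i → w i = w 6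

lemma good (w : ℕ → Bool) (hw : Seven w) : Good w := by
  have h : w = mk (w 0) (w 1) (w 2) (w 3) (w 4) (w 5) (w 6) := by
    funext i
    unfold mk
    rcases lt_or_ge i 6 with h | h
    · interval_cases i <;> simp
    · rw [if_neg (by omega), if_neg (by omega), if_neg (by omega), if_neg (by omega),
        if_neg (by omega), if_neg (by omega)]
      exact hw i h
  rw [h]
  exact good_all _ _ _ _ _ _ _

lemma boundary (w : ℕ → Bool) (h : ¬ (w 0 = w 5 ∧ w 1 = w 6)) :
    X w (rr w - 1) ≠ X w (rr w + 4) := by
  unfold rr
  split_ifs with h1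
  · have : w 0 ≠ w 5 := fun h2 => h ⟨h2, h1⟩
    simpa [X, phi] using this
  · simpa [X, phi] using h1

lemma per_right (w : ℕ → Bool) (j : ℤ) (h : rr w ≤ j) : X w (j + 5) = X w j := by
  rw [X_rr w _ (by omega), X_rr w _ h]
  congr 2
  omega

lemma core_rich (w : ℕ → Bool) (h : richB (core w) = true) : R (X w) (-4) 10 := by
  unfold R
  have h1 : win (X w) (-4) ((10:ℤ) + 1 - (-4)).toNat = core w := by
    have : ((10:ℤ) + 1 - (-4)).toNat = 15 := by decide
    rw [this]
    simp [win, core, List.range_succ, X, phi]
  rw [h1]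
  exact rich_of_richB _ h

lemma R_congr {x y : ℤ → Bool} {a e b f : ℤ} (hab : e - a = f - b)
    (h : ∀ k : ℤ, 0 ≤ k → k ≤ e - a → x (a + k) = y (b + k)) : R x a e ↔ R y b f := by
  unfold R
  have h1 : (e + 1 - a).toNat = (f + 1 - b).toNat := by omega
  rw [h1, win_congr (x := x) (y := y) (a := a) (b := b)
    (fun k hk => h k (by omega) (by omega))]

/-- Purely periodic words. -/
lemma pure_rich (w : ℕ → Bool) (hw : Seven w) (h0 : w 0 = w 5) (h1 : w 1 = w 6) :
    ∀ (n : ℕ) (a e : ℤ), e + 1 - a = n → R (X w) a e := by
  obtain ⟨hT, -, hR, hcore⟩ := good w hw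
  have hX : ∀ j : ℤ, X w j = yv w (j % 5).toNat := by
    intro j
    rcases lt_or_ge j 2 with h | h
    · rw [X_left w j (by omega)]
      unfold yv
      split_ifs with h2 h3
      · rw [h2, h0]
      · rw [h3, h1]
      · rfl
    · exact X_right w j h
  intro n
  induction n with
  | zero =>
    intro a e h
    unfold R
    have : (e + 1 - a).toNat = 0 := by omega
    rw [this]
    exact rich_nil
  | succ n ih =>
    intro a e h
    have hIH := ih a (e - 1) (by push_cast at h; omega)
    push_cast at h
    rcases lt_or_ge n 9 with hn | hn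
    · have hb := core_rich w hcore
      have hc := R_sub (b := (a + 4) % 5 - 4) (f := (a + 4) % 5 - 4 + n) hb (by omega) (by omega) (by omega)
      refine (R_congr (by omega) ?_).2 hc
      intro k hk0 hk1
      rw [hX, hX]
      congr 2
      omega
    · rcases hT with hT | hT
      · obtain ⟨t1, t2, t3, t4⟩ := hT
        have hc : ∀ j, X w j = w 6 := by
          intro j
          rw [hX]
          have h5 : (j % 5).toNat < 5 := by omega
          unfold yv
          generalize (j % 5).toNat = m at h5
          interval_cases m <;> simp [*]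
        refine R_step (s := a) le_rfl (by omega) ?_ ?_ hIH
        · intro i _ _; rw [hc, hc]
        · intro t ht1 ht2; omega
      · obtain ⟨c, hc5, hc⟩ := hR
        refine R_step (s := a + (c - e - a) % 5) (by omega) (by omega) ?_ ?_ hIH
        · intro i hi1 hi2
          rw [hX, hX]
          apply hc _ (by omega) _ (by omega)
          omega
        · intro t ht1 ht2
          obtain ⟨i, hi, hne⟩ := hT (t % 5).toNat (by omega)
            (a + (c - e - a) % 5 - t).toNat (by omega) (by omega)
          refine ⟨i, by omega, by omega, ?_⟩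
          rw [hX, hX]
          convert hne using 2 <;> omega

/-- Windows inside the right periodic part. -/
lemma right_rich (w : ℕ → Bool) (a e : ℤ) (ha : rr w ≤ a) (hae : a ≤ e + 1) :
    R (X w) a e := by
  set w' : ℕ → Bool := fun i => if i = 0 then w 5 else if i = 1 then w 6 else if i ≤ 6 then w i
    else w 6 with hw'
  have h5 : w' 5 = w 5 := by simp [hw']
  have h6 : w' 6 = w 6 := by simp [hw']
  have h0 : w' 0 = w' 5 := by simp [hw']
  have h1 : w' 1 = w' 6 := by simp [hw']
  have hs : Seven w' := by
    intro i hi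
    rcases eq_or_lt_of_le hi with rfl | h
    · rfl
    · simp only [hw']
      rw [if_neg (by omega), if_neg (by omega), if_neg (by omega)]
      simp
  have hr := pure_rich w' hs h0 h1 (e + 1 - a).toNat a e (by omega)
  refine (R_congr rfl ?_).1 hr
  intro k hk0 hk1
  have hr1 := rr_mem w
  have hr2 : rr w' = 1 := by unfold rr; rw [if_pos h1]
  rw [X_rr w' _ (by omega), X_rr w _ (by omega)]
  have hm : ((a + k) % 5).toNat < 5 := by omega
  generalize ((a + k) % 5).toNat = m at hm
  interval_cases m <;> simp [yv, hw']

/-- The key step: adding one letter on the right. -/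
lemma right_case (w : ℕ → Bool) (hw : Seven w) (hN : ¬ (w 0 = w 5 ∧ w 1 = w 6)) (a e : ℤ)
    (ha : a < rr w) (he : 11 ≤ e) (h : R (X w) a (e - 1)) : R (X w) a e := by
  obtain ⟨hT, hC, hR, -⟩ := good w hw
  have hr := rr_mem w
  have hB := boundary w hN
  rcases Classical.em (Tail w) with ht | ht
  · obtain ⟨t1, t2, t3, t4⟩ := ht
    have hc : ∀ j, rr w ≤ j → X w j = w 6 := by
      intro j hj
      rw [X_rr w j hj]
      have h5 : (j % 5).toNat < 5 := by omega
      unfold yv
      generalize (j % 5).toNat = m at h5
      interval_cases m <;> simp [*]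
    refine R_step (s := rr w) (by omega) (by omega) ?_ ?_ h
    · intro i hi1 hi2; rw [hc _ hi1, hc _ (by omega)]
    · intro t ht1 ht2
      refine ⟨(rr w - 1 - t) % 5, by omega, by omega, ?_⟩
      rw [hc (rr w + _) (by omega)]
      have h2 : X w (t + (rr w - 1 - t) % 5) = X w (rr w - 1) := by
        rw [X_left w _ (by omega), X_left w _ (by omega)]
        congr 1
        omega
      rw [h2]
      rw [hc (rr w + 4) (by omega)] at hB
      exact hB
  · have hD1 := hT.resolve_left ht
    have hD2 := (hC hN).resolve_left ht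
    obtain ⟨c, hc5, hc⟩ := hR
    set s : ℤ := rr w + (c - e - rr w) % 5 with hs
    have hs1 : rr w ≤ s := by omega
    have hs2 : s ≤ rr w + 4 := by omega
    have hpal : ∀ i, s ≤ i → i ≤ e → X w i = X w (s + e - i) := by
      intro i hi1 hi2
      rw [X_rr w _ (by omega), X_rr w _ (by omega)]
      apply hc _ (by omega) _ (by omega)
      omega
    have hno : ∀ t, t < s → (∀ i, 0 ≤ i → i ≤ e - s → X w (t + i) = X w (s + i)) →
        t < rr w ∧ t + (e - s) ≤ rr w + 3 := by
      intro t hts hm
      by_contra hcon
      rcases lt_or_ge t (rr w) with h1 | h1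
      · have h2 : rr w + 4 ≤ t + (e - s) := by
          by_contra h3
          exact hcon ⟨h1, by omega⟩
        have m1 := hm (rr w + 4 - t) (by omega) (by omega)
        have m2 := hm (rr w - 1 - t) (by omega) (by omega)
        have m3 := per_right w (s + (rr w - 1 - t)) (by omega)
        have e1 : t + (rr w + 4 - t) = rr w + 4 := by ring
        have e2 : t + (rr w - 1 - t) = rr w - 1 := by ring
        have e3 : s + (rr w - 1 - t) + 5 = s + (rr w + 4 - t) := by ring
        rw [e1] at m1
        rw [e2] at m2
        rw [e3] at m3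
        exact hB (by rw [m1, m2, m3])
      · obtain ⟨i, hi, hne⟩ := hD1 (t % 5).toNat (by omega) (s - t).toNat (by omega) (by omega)
        have := hm i (by omega) (by omega)
        rw [X_rr w _ (by omega), X_rr w _ (by omega)] at this
        apply hne
        convert this using 2 <;> omega
    rcases hD2 with hD2 | hP
    · refine R_step (s := s) (by omega) (by omega) hpal ?_ h
      intro t ht1 ht2
      by_contra hcon
      push Not at hcon
      obtain ⟨h1, h2⟩ := hno t ht2 hcon
      obtain ⟨i, hi, hne⟩ := hD2 (t % 5).toNat (by omega) (s % 5).toNat (by omega)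
      have := hcon i (by omega) (by omega)
      rw [X_left w _ (by omega), X_rr w _ (by omega)] at this
      apply hne
      convert this using 2 <;> omega
    · obtain ⟨p1, p2, p3, p4⟩ := hP
      have hr2 : rr w = 2 := by
        unfold rr; rw [if_neg]; rw [← p1]; exact fun h => p4 h.symm
      have hsym : ∀ j, X w (6 - j) = X w j := by
        intro j
        unfold X
        rw [phi_mirror]
        have h6 := phi_le j
        generalize phi j = m at h6
        interval_cases m <;> simp [*]
      rcases le_or_gt a (6 - e) with h6 | h6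
      · refine R_step (s := 6 - e) h6 (by omega) ?_ ?_ h
        · intro i hi1 hi2
          have : 6 - e + e - i = 6 - i := by ring
          rw [this, hsym]
        · intro t ht1 ht2
          by_contra hcon
          push Not at hcon
          have m1 := hcon (e - 1) (by omega) (by omega)
          have m2 := hcon (e - 6) (by omega) (by omega)
          have e1 : 6 - e + (e - 1) = 5 := by ring
          have e2 : 6 - e + (e - 6) = 0 := by ring
          rw [e1, X_left w (t + (e - 1)) (by omega)] at m1
          rw [e2, X_left w (t + (e - 6)) (by omega)] at m2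
          have e3 : ((t + (e - 1)) % 5).toNat = ((t + (e - 6)) % 5).toNat := by omega
          rw [e3, m2] at m1
          apply p4
          rw [p2]
          simpa [X, phi] using m1
      · refine R_step (s := s) (by omega) (by omega) hpal ?_ h
        intro t ht1 ht2
        by_contra hcon
        push Not at hcon
        obtain ⟨h1, h2⟩ := hno t ht2 hcon
        have h3 := hno (6 - t - (e - s)) (by omega) (by
          intro i hi0 hi1
          have q1 := hcon (e - s - i) (by omega) (by omega)
          have q2 := hpal (s + i) (by omega) (by omega)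
          have e1 : 6 - (6 - t - (e - s) + i) = t + (e - s - i) := by ring
          have e2 : s + e - (s + i) = s + (e - s - i) := by ring
          rw [← hsym, e1, q1, q2, e2])
        omega

/-- The reversed word. -/
def rev (w : ℕ → Bool) (i : ℕ) : Bool := w (6 - i)

lemma rev_seven (w : ℕ → Bool) : Seven (rev w) := by
  intro i hi
  unfold rev
  congr 1
  omega

lemma X_rev (w : ℕ → Bool) (j : ℤ) : X (rev w) j = X w (6 - j) := by
  unfold X rev
  rw [phi_mirror]

/-- All the words `X w` are rich. -/
lemma X_rich : ∀ (n : ℕ) (w : ℕ → Bool), Seven w → ∀ a e : ℤ, e + 1 - a = n → R (X w) a e := by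
  intro n
  induction n with
  | zero =>
    intro w hw a e h
    unfold R
    have : (e + 1 - a).toNat = 0 := by omega
    rw [this]
    exact rich_nil
  | succ n ih =>
    intro w hw a e h
    push_cast at h
    by_cases hp : w 0 = w 5 ∧ w 1 = w 6
    · exact pure_rich w hw hp.1 hp.2 (n + 1) a e (by push_cast; omega)
    by_cases c1 : rr w ≤ a
    · exact right_rich w a e c1 (by omega)
    by_cases c2 : rr (rev w) ≤ 6 - e
    · exact (R_mirror (m := 6) (X_rev w)).1 (right_rich (rev w) (6 - e) (6 - a) c2 (by omega))
    by_cases c3 : 11 ≤ e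
    · exact right_case w hw hp a e (by omega) c3 (ih w hw a (e - 1) (by omega))
    by_cases c4 : 11 ≤ 6 - a
    · refine (R_mirror (m := 6) (X_rev w)).1 ?_
      refine right_case (rev w) (rev_seven w) ?_ (6 - e) (6 - a) (by omega) c4
        (ih (rev w) (rev_seven w) (6 - e) (6 - a - 1) (by omega))
      rintro ⟨q1, q2⟩
      exact hp ⟨q2.symm, q1.symm⟩
    · exact R_sub (core_rich w (good w hw).2.2.2) (by omega) (by omega) (by omega)

/-- **Every `7 × 7` square extends to a rich plane.** -/
theorem result (w : ℤ → ℤ → Option Bool) (i₀ j₀ : ℤ)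
    (hw : ∀ i j, w i j ≠ none → (i₀ ≤ i ∧ i ≤ i₀ + 6) ∧ (j₀ ≤ j ∧ j ≤ j₀ + 6)) :
    ExtendsToRichPlane w := by
  refine ⟨fun i j => (w (i₀ + phi (i - i₀)) (j₀ + phi (j - j₀))).getD false, ?_, ?_⟩
  · intro i j b hb
    obtain ⟨⟨h1, h2⟩, h3, h4⟩ := hw i j (by rw [hb]; simp)
    have e1 : i₀ + (phi (i - i₀) : ℤ) = i := by
      rw [phi_of_mem _ (by omega) (by omega)]; omega
    have e2 : j₀ + (phi (j - j₀) : ℤ) = j := by
      rw [phi_of_mem _ (by omega) (by omega)]; omega
    simp only [e1, e2, hb, Option.getD_some]
  · intro i j u hu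
    constructor
    · intro hr
      have h1 : u = win (X (fun m => (w (i₀ + phi (i - i₀)) (j₀ + ((min m 6 : ℕ) : ℤ))).getD false))
          (j - j₀) u.length := by
        apply List.ext_getElem
        · simp
        · intro k hk1 hk2
          have := hr k hk1
          simp only [Option.some.injEq] at this
          rw [← this, win_getElem]
          unfold X
          have e1 : i + (k : ℤ) * 0 = i := by ring
          have e2 : j + (k : ℤ) * 1 - j₀ = j - j₀ + k := by ring
          have e3 : min (phi (j - j₀ + (k : ℤ))) 6 = phi (j - j₀ + k) :=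
            min_eq_left (phi_le _)
          rw [e1, e2]
          simp only [e3]
      have h2 := X_rich u.length (fun m => (w (i₀ + phi (i - i₀)) (j₀ + ((min m 6 : ℕ) : ℤ))).getD
        false) (by intro m hm; simp [hm]) (j - j₀) (j - j₀ + u.length - 1) (by ring)
      unfold R at h2
      have e4 : (j - j₀ + (u.length : ℤ) - 1 + 1 - (j - j₀)).toNat = u.length := by omega
      rw [e4, ← h1] at h2
      exact h2
    · intro hr
      have h1 : u = win (X (fun m => (w (i₀ + ((min m 6 : ℕ) : ℤ)) (j₀ + phi (j - j₀))).getD false))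
          (i - i₀) u.length := by
        apply List.ext_getElem
        · simp
        · intro k hk1 hk2
          have := hr k hk1
          simp only [Option.some.injEq] at this
          rw [← this, win_getElem]
          unfold X
          have e1 : j + (k : ℤ) * 0 = j := by ring
          have e2 : i + (k : ℤ) * 1 - i₀ = i - i₀ + k := by ring
          have e3 : min (phi (i - i₀ + (k : ℤ))) 6 = phi (i - i₀ + k) :=
            min_eq_left (phi_le _)
          rw [e1, e2]
          simp only [e3]
      have h2 := X_rich u.length (fun m => (w (i₀ + ((min m 6 : ℕ) : ℤ)) (j₀ + phi (j - j₀))).getD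
        false) (by intro m hm; simp [hm]) (i - i₀) (i - i₀ + u.length - 1) (by ring)
      unfold R at h2
      have e4 : (i - i₀ + (u.length : ℤ) - 1 + 1 - (i - i₀)).toNat = u.length := by omega
      rw [e4, ← h1] at h2
      exact h2

end Pool.Agent.Results.MP_0bf243_co.SevenSquares
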